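import Pool.Agent.X17.CycSum.Main

/-!
# The largest pre-period of the cyclic sum map modulo `m`
-/

set_option autoImplicit false

namespace Pool.Agent.Results.MP_6a5936_nt.LargestPreperiod

open Pool.Agent.X17.CycSum

/-- For all positive integers `m`, `n` the largest pre-period of
`(a_0, ..., a_{n-1}) ↦ (a_0 + a_1, ..., a_{n-1} + a_0)` on `(ℤ/m)^n` is the maximum of `1` and
the numbers `np m n p`, `p ∣ m` prime, where, with `e = v_p(m)` and `k = v_p(n)`:
`np m n 2 = e` if `k = 0` and `2^(k-1) (e + 1)` otherwise; for odd `p`,
`np m n p = p^(k-1) (e (p - 1) + 1)` if `n` is even and `p ∣ n`, and `1` otherwise. -/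
theorem result (m n : ℕ) [NeZero m] [NeZero n] :
    IsGreatest {N : ℕ | ∃ a : Fin n → ZMod m, prePeriod a = N}
      (max 1 (m.primeFactors.sup (fun p =>
        if p = 2 then
          (if n.factorization 2 = 0 then m.factorization 2
            else 2 ^ (n.factorization 2 - 1) * (m.factorization 2 + 1))
        else if Even n ∧ 0 < n.factorization p then
          p ^ (n.factorization p - 1) * (m.factorization p * (p - 1) + 1)
        else 1))) :=
  main m n

end Pool.Agent.Results.MP_6a5936_nt.LargestPreperiod
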